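import Pool.Agent.FNW.Pot

/-!
Weighted version of the four point inequality and of the double counting.
-/

open Finset
open scoped Classical

namespace Pool.WFN

open Pool.FNW (th th1 th2 th3 th_nonneg th_le pat0 pat1 pat2m pat2c pat3)

/-- the four point inequality for a set of present pairs, in the form used below -/
lemma fp {x x' y y' ab ac a'b a'c : ℝ} (p1 p2 p3 p4 : Prop)
    [Decidable p1] [Decidable p2] [Decidable p3] [Decidable p4]
    (T1 : p1 → p3 → x + x' + ab + a'b ≤ 0) (T2 : p2 → p4 → x + x' + ac + a'c ≤ 0)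
    (T3 : p1 → p2 → y + y' + ab + ac ≤ 0) (T4 : p3 → p4 → y + y' + a'b + a'c ≤ 0)
    (c1 : p1 → ab ≤ x + y) (c2 : p2 → ac ≤ x + y') (c3 : p3 → a'b ≤ x' + y)
    (c4 : p4 → a'c ≤ x' + y') :
    (if p1 then ab + (th x x' + th y y') else 0) + (if p2 then ac + (th x x' + th y y') else 0)
      + (if p3 then a'b + (th x x' + th y y') else 0)
      + (if p4 then a'c + (th x x' + th y y') else 0) ≤ 3 * (th x x' + th y y') := by
  have n1 := th_nonneg x x'
  have n2 := th_nonneg y y'
  have a1 := th1 x x'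
  have a2 := th2 x x'
  have a3 := th3 x x'
  have b1 := th1 y y'
  have b2 := th2 y y'
  have b3 := th3 y y'
  by_cases h1 : p1 <;> by_cases h2 : p2 <;> by_cases h3 : p3 <;>
    by_cases h4 : p4 <;> simp only [h1, h2, h3, h4, if_true, if_false]
  · -- all present
    have := pat0 (T1 h1 h3) (T2 h2 h4) (T3 h1 h2) (T4 h3 h4) (c1 h1) (c2 h2) (c3 h3) (c4 h4)
    linarith
  · have := T1 h1 h3; have := T3 h1 h2; have := c2 h2; have := c3 h3
    linarith
  · have := T2 h2 h4; have := T3 h1 h2; have := c1 h1; have := c4 h4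
    linarith
  · have := T3 h1 h2; have := c1 h1; have := c2 h2
    linarith
  · have := T1 h1 h3; have := T4 h3 h4; have := c1 h1; have := c4 h4
    linarith
  · have := T1 h1 h3; have := c1 h1; have := c3 h3
    linarith
  · have := c1 h1; have := c4 h4
    linarith
  · have := c1 h1
    linarith
  · have := T2 h2 h4; have := T4 h3 h4; have := c2 h2; have := c3 h3
    linarith
  · have := c2 h2; have := c3 h3
    linarith
  · have := T2 h2 h4; have := c2 h2; have := c4 h4
    linarith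
  · have := c2 h2
    linarith
  · have := T4 h3 h4; have := c3 h3; have := c4 h4
    linarith
  · have := c3 h3
    linarith
  · have := c4 h4
    linarith
  · linarith

/-- one weighted cross pair -/
lemma cut {w r t : ℝ} (w0 : 0 ≤ w) (w1 : w ≤ 1) :
    w * (r + t) ≤ if (0 < w ∧ 0 ≤ r + t) then r + t else 0 := by
  split_ifs with h
  · nlinarith [h.2]
  · rcases eq_or_lt_of_le w0 with h0 | h0
    · rw [← h0]; simp
    · have : r + t < 0 := by
        by_contra hc
        exact h ⟨h0, not_lt.1 hc⟩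
      nlinarith

variable {V : Type*} [Fintype V] {G : SimpleGraph V} {w : V → V → ℝ}

omit [Fintype V] in
/-- the weighted four point inequality -/
lemma four_point (w0 : ∀ a b, 0 ≤ w a b) (w1 : ∀ a b, w a b ≤ 1)
    (hw : ∀ a b, 0 < w a b → G.Adj a b) {r : V → V → ℝ}
    (ht : ∀ a b c, G.Adj a b → G.Adj a c → G.Adj b c → r a b + r a c + r b c ≤ 0)
    {h : V → ℝ} (hc : ∀ a b, G.Adj a b → r a b ≤ h a + h b)
    {a a' b c : V} (he : G.Adj a a') (he' : r a a' = h a + h a')
    (hf : G.Adj b c) (hf' : r b c = h b + h c) :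
    w a b * r a b + w a c * r a c + w a' b * r a' b + w a' c * r a' c
      ≤ ((1 - w a b) + (1 - w a c) + (1 - w a' b) + (1 - w a' c) - 1)
        * (th (h a) (h a') + th (h b) (h c)) := by
  have T1 : G.Adj a b → G.Adj a' b → h a + h a' + r a b + r a' b ≤ 0 := by
    intro h1 h2
    have := ht a a' b he h1 h2
    linarith
  have T2 : G.Adj a c → G.Adj a' c → h a + h a' + r a c + r a' c ≤ 0 := by
    intro h1 h2
    have := ht a a' c he h1 h2
    linarith
  have T3 : G.Adj a b → G.Adj a c → h b + h c + r a b + r a c ≤ 0 := by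
    intro h1 h2
    have := ht a b c h1 h2 hf
    linarith
  have T4 : G.Adj a' b → G.Adj a' c → h b + h c + r a' b + r a' c ≤ 0 := by
    intro h1 h2
    have := ht a' b c h1 h2 hf
    linarith
  set t : ℝ := th (h a) (h a') + th (h b) (h c) with htt
  have key := fp (x := h a) (x' := h a') (y := h b) (y' := h c) (ab := r a b) (ac := r a c)
    (a'b := r a' b) (a'c := r a' c)
    (0 < w a b ∧ 0 ≤ r a b + t) (0 < w a c ∧ 0 ≤ r a c + t)
    (0 < w a' b ∧ 0 ≤ r a' b + t) (0 < w a' c ∧ 0 ≤ r a' c + t)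
    (fun u v => T1 (hw _ _ u.1) (hw _ _ v.1)) (fun u v => T2 (hw _ _ u.1) (hw _ _ v.1))
    (fun u v => T3 (hw _ _ u.1) (hw _ _ v.1)) (fun u v => T4 (hw _ _ u.1) (hw _ _ v.1))
    (fun u => hc _ _ (hw _ _ u.1)) (fun u => hc _ _ (hw _ _ u.1))
    (fun u => hc _ _ (hw _ _ u.1)) (fun u => hc _ _ (hw _ _ u.1))
  rw [← htt] at key
  have k1 := cut (r := r a b) (t := t) (w0 a b) (w1 a b)
  have k2 := cut (r := r a c) (t := t) (w0 a c) (w1 a c)
  have k3 := cut (r := r a' b) (t := t) (w0 a' b) (w1 a' b)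
  have k4 := cut (r := r a' c) (t := t) (w0 a' c) (w1 a' c)
  have e : ((1 - w a b) + (1 - w a c) + (1 - w a' b) + (1 - w a' c) - 1) * t
      - (w a b * r a b + w a c * r a c + w a' b * r a' b + w a' c * r a' c)
      = 3 * t - (w a b * (r a b + t) + w a c * (r a c + t) + w a' b * (r a' b + t)
        + w a' c * (r a' c + t)) := by ring
  linarith

/-- the double counting -/
theorem sum_le_zero (w0 : ∀ a b, 0 ≤ w a b) (w1 : ∀ a b, w a b ≤ 1)
    (ws : ∀ a b, w a b = w b a) (hw : ∀ a b, 0 < w a b → G.Adj a b)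
    (hG : ∀ a, (3 / 4 : ℝ) * Fintype.card V ≤ ∑ b, w a b)
    {r : V → V → ℝ}
    (ht : ∀ a b c, G.Adj a b → G.Adj a c → G.Adj b c → r a b + r a c + r b c ≤ 0)
    {h : V → ℝ} (hc : ∀ a b, G.Adj a b → r a b ≤ h a + h b)
    {y : V → V → ℝ} (y0 : ∀ a b, 0 ≤ y a b) (ys : ∀ a b, y a b = y b a)
    (yt : ∀ a b, y a b ≠ 0 → G.Adj a b ∧ r a b = h a + h b)
    (y1 : ∀ a, ∑ b, y a b = 1) :
    ∑ a, ∑ b, (w a b * r a b) ≤ 0 := by
  -- pointwise inequality, multiplied by the weights
  have hp : ∀ a a' b c, y a a' * y b c * ((w a b * r a b) + (w a c * r a c) + (w a' b * r a' b) + (w a' c * r a' c))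
      ≤ y a a' * y b c * (((1 - w a b) + (1 - w a c) + (1 - w a' b) + (1 - w a' c) - 1)
        * (th (h a) (h a') + th (h b) (h c))) := by
    intro a a' b c
    by_cases h1 : y a a' = 0
    · rw [h1]; simp
    by_cases h2 : y b c = 0
    · rw [h2]; simp
    exact mul_le_mul_of_nonneg_left
      (four_point w0 w1 hw ht hc (yt _ _ h1).1 (yt _ _ h1).2 (yt _ _ h2).1 (yt _ _ h2).2)
      (mul_nonneg (y0 _ _) (y0 _ _))
  have y1' : ∀ b, ∑ a, y a b = 1 := by
    intro b
    rw [← y1 b]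
    exact Finset.sum_congr rfl fun a _ => ys a b
  -- collapsing sums
  have col : ∀ F : V → V → ℝ, ∑ a, ∑ a', ∑ b, ∑ c, y a a' * y b c * F a b = ∑ a, ∑ b, F a b := by
    intro F
    refine Finset.sum_congr rfl fun a _ => ?_
    have : ∀ a', ∑ b, ∑ c, y a a' * y b c * F a b = y a a' * ∑ b, F a b := by
      intro a'
      rw [Finset.mul_sum]
      refine Finset.sum_congr rfl fun b _ => ?_
      rw [← Finset.sum_mul, ← Finset.mul_sum, y1 b, mul_one]
    simp only [this]
    rw [← Finset.sum_mul, y1 a, one_mul]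
  have sw1 : ∀ F : V → V → V → V → ℝ, ∑ a, ∑ a', ∑ b, ∑ c, F a a' b c
      = ∑ a, ∑ a', ∑ b, ∑ c, F a' a b c := by
    intro F; rw [Finset.sum_comm]
  have sw2 : ∀ F : V → V → V → V → ℝ, ∑ a, ∑ a', ∑ b, ∑ c, F a a' b c
      = ∑ a, ∑ a', ∑ b, ∑ c, F a a' c b := by
    intro F
    refine Finset.sum_congr rfl fun a _ => Finset.sum_congr rfl fun a' _ => ?_
    rw [Finset.sum_comm]
  have col2 : ∀ F : V → V → ℝ, ∑ a, ∑ a', ∑ b, ∑ c, y a a' * y b c * F a c = ∑ a, ∑ b, F a b := by
    intro F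
    rw [sw2, ← col F]
    refine Finset.sum_congr rfl fun a _ => Finset.sum_congr rfl fun a' _ =>
      Finset.sum_congr rfl fun b _ => Finset.sum_congr rfl fun c _ => ?_
    rw [ys c b]
  have col3 : ∀ F : V → V → ℝ, ∑ a, ∑ a', ∑ b, ∑ c, y a a' * y b c * F a' b = ∑ a, ∑ b, F a b := by
    intro F
    rw [sw1, ← col F]
    refine Finset.sum_congr rfl fun a _ => Finset.sum_congr rfl fun a' _ =>
      Finset.sum_congr rfl fun b _ => Finset.sum_congr rfl fun c _ => ?_
    rw [ys a' a]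
  have col4 : ∀ F : V → V → ℝ, ∑ a, ∑ a', ∑ b, ∑ c, y a a' * y b c * F a' c = ∑ a, ∑ b, F a b := by
    intro F
    rw [sw1, ← col2 F]
    refine Finset.sum_congr rfl fun a _ => Finset.sum_congr rfl fun a' _ =>
      Finset.sum_congr rfl fun b _ => Finset.sum_congr rfl fun c _ => ?_
    rw [ys a' a]
  have hL : ∑ a, ∑ a', ∑ b, ∑ c, y a a' * y b c *
      ((w a b * r a b) + (w a c * r a c) + (w a' b * r a' b) + (w a' c * r a' c)) = 4 * ∑ a, ∑ b, (w a b * r a b) := by
    simp only [mul_add, Finset.sum_add_distrib]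
    rw [col, col2, col3, col4]; ring
  -- number of non-neighbours
  have hnon : ∀ a, ∑ b, (1 - w a b) = Fintype.card V - ∑ b, w a b := by
    intro a
    rw [Finset.sum_sub_distrib]
    simp
  have inner : ∀ a a', ∑ b, ∑ c, y b c *
      ((1 - w a b) + (1 - w a c) + (1 - w a' b) + (1 - w a' c) - 1) ≤ 0 := by
    intro a a'
    have k1 : ∀ f : V → ℝ, ∑ b, ∑ c, y b c * f b = ∑ b, f b := by
      intro f
      refine Finset.sum_congr rfl fun b _ => ?_
      rw [← Finset.sum_mul, y1 b, one_mul]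
    have k2 : ∀ f : V → ℝ, ∑ b, ∑ c, y b c * f c = ∑ b, f b := by
      intro f
      rw [Finset.sum_comm]
      refine Finset.sum_congr rfl fun b _ => ?_
      rw [← Finset.sum_mul, y1' b, one_mul]
    have k3 : ∑ b, ∑ c, y b c * (1 : ℝ) = Fintype.card V := by
      rw [k1 fun _ => (1 : ℝ)]; simp
    have e : ∀ b c, y b c * ((1 - w a b) + (1 - w a c) + (1 - w a' b) + (1 - w a' c) - 1)
        = y b c * (1 - w a b) + y b c * (1 - w a c) + y b c * (1 - w a' b)
          + y b c * (1 - w a' c) - y b c * 1 := fun b c => by ring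
    simp only [e, Finset.sum_add_distrib, Finset.sum_sub_distrib]
    rw [k1 fun b => 1 - w a b, k2 fun b => 1 - w a b, k1 fun b => 1 - w a' b,
      k2 fun b => 1 - w a' b, k3, hnon, hnon]
    have := hG a; have := hG a'
    linarith
  have hR1 : ∑ a, ∑ a', ∑ b, ∑ c, y a a' * y b c *
      (((1 - w a b) + (1 - w a c) + (1 - w a' b) + (1 - w a' c) - 1) * th (h a) (h a')) ≤ 0 := by
    refine Finset.sum_nonpos fun a _ => Finset.sum_nonpos fun a' _ => ?_
    have e : ∑ b, ∑ c, y a a' * y b c *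
      (((1 - w a b) + (1 - w a c) + (1 - w a' b) + (1 - w a' c) - 1) * th (h a) (h a'))
      = (y a a' * th (h a) (h a')) * ∑ b, ∑ c, y b c *
        ((1 - w a b) + (1 - w a c) + (1 - w a' b) + (1 - w a' c) - 1) := by
      rw [Finset.mul_sum]
      refine Finset.sum_congr rfl fun b _ => ?_
      rw [Finset.mul_sum]
      refine Finset.sum_congr rfl fun c _ => ?_
      ring
    rw [e]
    exact mul_nonpos_of_nonneg_of_nonpos (mul_nonneg (y0 _ _) (th_nonneg _ _)) (inner a a')
  have nons : ∀ a b, (1 - w a b) = (1 - w b a) := by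
    intro a b; rw [ws a b]
  have hR2 : ∑ a, ∑ a', ∑ b, ∑ c, y a a' * y b c *
      (((1 - w a b) + (1 - w a c) + (1 - w a' b) + (1 - w a' c) - 1) * th (h b) (h c)) ≤ 0 := by
    have e : ∑ a, ∑ a', ∑ b, ∑ c, y a a' * y b c *
      (((1 - w a b) + (1 - w a c) + (1 - w a' b) + (1 - w a' c) - 1) * th (h b) (h c))
      = ∑ b, ∑ c, ∑ a, ∑ a', y a a' * y b c *
      (((1 - w a b) + (1 - w a c) + (1 - w a' b) + (1 - w a' c) - 1) * th (h b) (h c)) := by
      calc ∑ a, ∑ a', ∑ b, ∑ c, y a a' * y b c *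
            (((1 - w a b) + (1 - w a c) + (1 - w a' b) + (1 - w a' c) - 1) * th (h b) (h c))
          = ∑ a, ∑ b, ∑ a', ∑ c, y a a' * y b c *
            (((1 - w a b) + (1 - w a c) + (1 - w a' b) + (1 - w a' c) - 1) * th (h b) (h c)) :=
            Finset.sum_congr rfl fun a _ => Finset.sum_comm
        _ = ∑ b, ∑ a, ∑ a', ∑ c, y a a' * y b c *
            (((1 - w a b) + (1 - w a c) + (1 - w a' b) + (1 - w a' c) - 1) * th (h b) (h c)) :=
            Finset.sum_comm
        _ = ∑ b, ∑ a, ∑ c, ∑ a', y a a' * y b c *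
            (((1 - w a b) + (1 - w a c) + (1 - w a' b) + (1 - w a' c) - 1) * th (h b) (h c)) :=
            Finset.sum_congr rfl fun b _ => Finset.sum_congr rfl fun a _ => Finset.sum_comm
        _ = ∑ b, ∑ c, ∑ a, ∑ a', y a a' * y b c *
            (((1 - w a b) + (1 - w a c) + (1 - w a' b) + (1 - w a' c) - 1) * th (h b) (h c)) :=
            Finset.sum_congr rfl fun b _ => Finset.sum_comm
    rw [e]
    refine le_trans (le_of_eq ?_) hR1
    refine Finset.sum_congr rfl fun a _ => Finset.sum_congr rfl fun a' _ =>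
      Finset.sum_congr rfl fun b _ => Finset.sum_congr rfl fun c _ => ?_
    rw [nons b a, nons b a', nons c a, nons c a']; ring
  have htot : ∑ a, ∑ a', ∑ b, ∑ c, y a a' * y b c *
      ((w a b * r a b) + (w a c * r a c) + (w a' b * r a' b) + (w a' c * r a' c))
      ≤ ∑ a, ∑ a', ∑ b, ∑ c, y a a' * y b c *
      (((1 - w a b) + (1 - w a c) + (1 - w a' b) + (1 - w a' c) - 1)
        * (th (h a) (h a') + th (h b) (h c))) :=
    Finset.sum_le_sum fun a _ => Finset.sum_le_sum fun a' _ => Finset.sum_le_sum fun b _ =>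
      Finset.sum_le_sum fun c _ => hp a a' b c
  have hsplit : ∑ a, ∑ a', ∑ b, ∑ c, y a a' * y b c *
      (((1 - w a b) + (1 - w a c) + (1 - w a' b) + (1 - w a' c) - 1)
        * (th (h a) (h a') + th (h b) (h c)))
      = ∑ a, ∑ a', ∑ b, ∑ c, y a a' * y b c *
      (((1 - w a b) + (1 - w a c) + (1 - w a' b) + (1 - w a' c) - 1) * th (h a) (h a'))
      + ∑ a, ∑ a', ∑ b, ∑ c, y a a' * y b c *
      (((1 - w a b) + (1 - w a c) + (1 - w a' b) + (1 - w a' c) - 1) * th (h b) (h c)) := by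
    simp only [← Finset.sum_add_distrib]
    refine Finset.sum_congr rfl fun a _ => Finset.sum_congr rfl fun a' _ =>
      Finset.sum_congr rfl fun b _ => Finset.sum_congr rfl fun c _ => ?_
    ring
  rw [hL, hsplit] at htot
  linarith

end Pool.WFN
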