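import Pool.Agent.WFN.Core

/-!
Existence of the weighting of the triangles.
-/

open Finset Filter Topology
open scoped Classical

namespace Pool.WFN

open Pool.FNW (exists_pot exists_mat slope_nonneg)

variable {V : Type*} [Fintype V] {G : SimpleGraph V}

/-- coverage of a pair -/
noncomputable def cov (w : Finset V → ℝ) (a b : V) : ℝ :=
  ∑ K : Finset V, if a ∈ K ∧ b ∈ K then w K else 0

/-- admissible weightings with capacity -/
def Wei (G : SimpleGraph V) (B : ℝ) : Set (Finset V → ℝ) :=
  {w | (∀ K, 0 ≤ w K) ∧ (∀ K, w K ≤ B) ∧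
    ∀ K : Finset V, ¬ (G.IsClique (K : Set V) ∧ K.card = 3) → w K = 0}

omit [Fintype V] in
lemma wei_compact (B : ℝ) : IsCompact (Wei G B) := by
  have hK : IsCompact (Set.pi Set.univ fun _ : Finset V => Set.Icc (0 : ℝ) B) :=
    isCompact_univ_pi fun _ => isCompact_Icc
  refine hK.of_isClosed_subset ?_ ?_
  · have : Wei G B = (⋂ K : Finset V, {w : Finset V → ℝ | 0 ≤ w K}) ∩
        ((⋂ K : Finset V, {w : Finset V → ℝ | w K ≤ B}) ∩
        (⋂ K : Finset V, ⋂ _ : ¬ (G.IsClique (K : Set V) ∧ K.card = 3),
          {w : Finset V → ℝ | w K = 0})) := by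
      ext w
      simp only [Wei, Set.mem_ofPred_eq, Set.mem_inter_iff, Set.mem_iInter]
    rw [this]
    refine IsClosed.inter ?_ (IsClosed.inter ?_ ?_)
    · exact isClosed_iInter fun K => isClosed_le continuous_const (continuous_apply K)
    · exact isClosed_iInter fun K => isClosed_le (continuous_apply K) continuous_const
    · exact isClosed_iInter fun K => isClosed_iInter fun _ =>
        isClosed_eq (continuous_apply K) continuous_const
  · intro w hw
    simp only [Set.mem_pi, Set.mem_univ, true_implies, Set.mem_Icc]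
    exact fun K => ⟨hw.1 K, hw.2.1 K⟩

lemma cov_cont (a b : V) : Continuous fun w : Finset V → ℝ => cov w a b := by
  unfold cov
  refine continuous_finsetSum _ fun K _ => ?_
  by_cases h : a ∈ K ∧ b ∈ K
  · simp only [if_pos h]; exact continuous_apply K
  · simp only [if_neg h]; exact continuous_const

lemma cov_add (w : Finset V → ℝ) (K : Finset V) (t : ℝ) (a b : V) :
    cov (fun L => w L + if L = K then t else 0) a b
      = cov w a b + if a ∈ K ∧ b ∈ K then t else 0 := by
  unfold cov
  have : ∀ L : Finset V, (if a ∈ L ∧ b ∈ L then (w L + if L = K then t else 0) else 0)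
      = (if a ∈ L ∧ b ∈ L then w L else 0) + (if L = K then (if a ∈ K ∧ b ∈ K then t else 0) else 0) := by
    intro L
    by_cases h : L = K
    · subst h; split_ifs <;> simp
    · simp [h]
  rw [Finset.sum_congr rfl fun L _ => this L, Finset.sum_add_distrib, Finset.sum_ite_eq']
  simp

lemma cov_mul (w : Finset V → ℝ) (t : ℝ) (a b : V) :
    cov (fun L => t * w L) a b = t * cov w a b := by
  unfold cov
  rw [Finset.mul_sum]
  refine Finset.sum_congr rfl fun L _ => ?_
  split_ifs <;> simp

lemma cov_symm (w : Finset V → ℝ) (a b : V) : cov w a b = cov w b a := by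
  unfold cov
  refine Finset.sum_congr rfl fun K _ => ?_
  simp only [and_comm]

/-- **the weighted fractional decomposition**, weights on the 3-sets -/
theorem exists_weights {p : V → V → ℝ} (p0 : ∀ a b, 0 ≤ p a b) (p1 : ∀ a b, p a b ≤ 1)
    (ps : ∀ a b, p a b = p b a) (hpG : ∀ a b, 0 < p a b → G.Adj a b)
    (hG : ∀ a, (3 / 4 : ℝ) * Fintype.card V ≤ ∑ b, p a b) :
    ∃ w : Finset V → ℝ, (∀ K, 0 ≤ w K) ∧
      (∀ K, w K ≠ 0 → G.IsClique (K : Set V) ∧ K.card = 3) ∧
      ∀ a b, G.Adj a b → cov w a b = p a b := by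
  have hdeg : ∀ v, (3 / 4 : ℝ) * Fintype.card V ≤ G.degree v := by
    intro a
    refine (hG a).trans ?_
    have h1 : (G.degree a : ℝ) = ∑ b, if G.Adj a b then (1 : ℝ) else 0 := by
      rw [Finset.sum_boole, SimpleGraph.degree, SimpleGraph.neighborFinset_eq_filter]
    rw [h1]
    refine Finset.sum_le_sum fun b _ => ?_
    split_ifs with hab
    · exact p1 a b
    · by_contra hc
      exact hab (hpG a b (not_le.1 hc))
  rcases isEmpty_or_nonempty V with hV | hV
  · exact ⟨fun _ => 0, fun _ => le_rfl, fun K h => absurd rfl h, fun a => (hV.false a).elim⟩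
  set n : ℝ := (Fintype.card V : ℝ) with hn
  have hn0 : 0 ≤ n := by rw [hn]; positivity
  set B : ℝ := n ^ 2 + 3 with hB
  have hB0 : 0 ≤ B := by positivity
  have hz0 : (fun _ => 0 : Finset V → ℝ) ∈ Wei G B :=
    ⟨fun _ => le_rfl, fun _ => hB0, fun _ _ => rfl⟩
  have hcont : Continuous fun w : Finset V → ℝ =>
      ∑ a, ∑ b, (if G.Adj a b then (p a b - cov w a b) ^ 2 else 0) := by
    refine continuous_finsetSum _ fun a _ => continuous_finsetSum _ fun b _ => ?_
    by_cases h : G.Adj a b
    · simp only [if_pos h]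
      exact (continuous_const.sub (cov_cont a b)).pow 2
    · simp only [if_neg h]; exact continuous_const
  obtain ⟨w, hw, hmin⟩ := (wei_compact (G := G) B).exists_isMinOn ⟨_, hz0⟩ hcont.continuousOn
  obtain ⟨w0, wB, wt⟩ := id hw
  set s : V → V → ℝ := fun a b => p a b - cov w a b with hs
  have hle : ∀ z ∈ Wei G B, ∑ a, ∑ b, (if G.Adj a b then (s a b) ^ 2 else 0)
      ≤ ∑ a, ∑ b, (if G.Adj a b then (p a b - cov z a b) ^ 2 else 0) := fun z hz => hmin hz
  have hss : ∀ a b, s a b = s b a := fun a b => by simp only [hs, cov_symm w a b, ps a b]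
  -- bound for the weights
  have htot : ∑ a, ∑ b, (if G.Adj a b then (s a b) ^ 2 else 0) ≤ n ^ 2 := by
    refine (hle _ hz0).trans ?_
    have : ∀ a b, (if G.Adj a b then (p a b - cov (fun _ => 0) a b) ^ 2 else 0) ≤ (1 : ℝ) := by
      intro a b
      unfold cov
      have h0 := p0 a b
      have h1 := p1 a b
      split_ifs
      · simp only [ite_self, Finset.sum_const_zero, sub_zero]
        nlinarith
      · norm_num
    refine (Finset.sum_le_sum fun a _ => Finset.sum_le_sum fun b _ => this a b).trans ?_
    simp only [Finset.sum_const, Finset.card_univ, nsmul_eq_mul]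
    rw [← hn]
    apply le_of_eq; ring
  have hwb : ∀ K, w K ≤ n ^ 2 + 2 := by
    intro K
    by_cases hK : G.IsClique (K : Set V) ∧ K.card = 3
    · obtain ⟨hcl, hcard⟩ := hK
      have h2 : 1 < K.card := by omega
      obtain ⟨a, ha, b, hb, hab⟩ := Finset.one_lt_card.1 h2
      have hadj : G.Adj a b := hcl ha hb hab
      have h3 : w K ≤ cov w a b := by
        unfold cov
        have h4 := Finset.single_le_sum (s := (univ : Finset (Finset V)))
          (f := fun K => if a ∈ K ∧ b ∈ K then w K else 0)
          (fun K _ => by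
            show (0 : ℝ) ≤ if a ∈ K ∧ b ∈ K then w K else 0
            split_ifs
            · exact w0 K
            · exact le_rfl) (Finset.mem_univ K)
        simp only [ha, hb, and_self, if_true] at h4
        exact h4
      have h5 : (s a b) ^ 2 ≤ n ^ 2 := by
        refine le_trans ?_ htot
        have g0 : ∀ a b, 0 ≤ (if G.Adj a b then (s a b) ^ 2 else 0) := by
          intro a b; split_ifs
          · exact sq_nonneg _
          · exact le_rfl
        have g1 : (s a b) ^ 2 ≤ ∑ b, (if G.Adj a b then (s a b) ^ 2 else 0) := by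
          have := Finset.single_le_sum (f := fun b => if G.Adj a b then (s a b) ^ 2 else 0)
            (fun b _ => g0 a b) (Finset.mem_univ b)
          simpa only [if_pos hadj] using this
        exact g1.trans (Finset.single_le_sum
          (f := fun a => ∑ b, if G.Adj a b then (s a b) ^ 2 else 0)
          (fun a _ => Finset.sum_nonneg fun b _ => g0 a b) (Finset.mem_univ a))
      have h6 : -s a b ≤ n ^ 2 + 1 := by nlinarith
      have h7 : cov w a b = p a b - s a b := by simp [hs]
      have h8 := p1 a b
      linarith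
    · rw [wt K hK]; positivity
  -- first order conditions
  have k1 : ∀ a b c, G.Adj a b → G.Adj a c → G.Adj b c → s a b + s a c + s b c ≤ 0 := by
    intro a b c gab gac gbc
    set K : Finset V := {a, b, c} with hK
    have hKc : K.card = 3 := by
      rw [hK, Finset.card_eq_three]
      exact ⟨a, b, c, gab.ne, gac.ne, gbc.ne, rfl⟩
    have hKcl : G.IsClique (K : Set V) := by
      intro x hx y hy hxy
      simp only [hK, Finset.coe_insert, Finset.coe_singleton, Set.mem_insert_iff,
        Set.mem_singleton_iff] at hx hy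
      rcases hx with rfl | rfl | rfl <;> rcases hy with rfl | rfl | rfl
      · exact absurd rfl hxy
      · exact gab
      · exact gac
      · exact gab.symm
      · exact absurd rfl hxy
      · exact gbc
      · exact gac.symm
      · exact gbc.symm
      · exact absurd rfl hxy
    have hsumK : ∀ F : V → V → ℝ, ∑ x, ∑ y, (if x ∈ K ∧ y ∈ K then F x y else 0)
        = ∑ x ∈ K, ∑ y ∈ K, F x y := by
      intro F
      rw [← Finset.sum_filter_add_sum_filter_not univ (fun x => x ∈ K)]
      have e1 : ∑ x ∈ univ.filter (fun x => ¬ x ∈ K), ∑ y, (if x ∈ K ∧ y ∈ K then F x y else 0) = 0 := by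
        refine Finset.sum_eq_zero fun x hx => Finset.sum_eq_zero fun y _ => ?_
        rw [Finset.mem_filter] at hx
        rw [if_neg fun h => hx.2 h.1]
      rw [e1, add_zero, Finset.filter_mem_eq_inter, Finset.univ_inter]
      refine Finset.sum_congr rfl fun x hx => ?_
      rw [← Finset.sum_filter]
      have : univ.filter (fun y => x ∈ K ∧ y ∈ K) = K := by
        ext y; simp [hx]
      rw [this]
    have hsum3 : ∀ F : V → V → ℝ, (∀ x, F x x = 0) → (∀ x y, F x y = F y x) →
        ∑ x ∈ K, ∑ y ∈ K, F x y = 2 * (F a b + F a c + F b c) := by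
      intro F F0 Fs
      rw [hK]
      have n1 : a ∉ ({b, c} : Finset V) := by
        simp [gab.ne, gac.ne]
      have n2 : b ∉ ({c} : Finset V) := by simp [gbc.ne]
      rw [Finset.sum_insert n1, Finset.sum_insert n2, Finset.sum_singleton,
        Finset.sum_insert n1, Finset.sum_insert n2, Finset.sum_singleton,
        Finset.sum_insert n1, Finset.sum_insert n2, Finset.sum_singleton,
        Finset.sum_insert n1, Finset.sum_insert n2, Finset.sum_singleton,
        F0 a, F0 b, F0 c, Fs b a, Fs c a, Fs c b]
      ring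
    have hsl : 0 ≤ -(4 * (s a b + s a c + s b c)) := by
      apply slope_nonneg (C := 6)
      have hsmall : ∀ᶠ t in 𝓝[>] (0 : ℝ), t < 1 :=
        nhdsWithin_le_nhds (gt_mem_nhds (by norm_num))
      have hpos : ∀ᶠ t in 𝓝[>] (0 : ℝ), 0 < t := self_mem_nhdsWithin
      filter_upwards [hsmall, hpos] with t ht1 ht0
      have hzm : (fun L => w L + if L = K then t else 0) ∈ Wei G B := by
        refine ⟨fun L => ?_, fun L => ?_, fun L hL => ?_⟩
        · show 0 ≤ w L + if L = K then t else 0
          split_ifs
          · linarith [w0 L]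
          · linarith [w0 L]
        · show w L + (if L = K then t else 0) ≤ B
          split_ifs
          · linarith [hwb L]
          · linarith [hwb L]
        · show w L + (if L = K then t else 0) = 0
          rw [wt L hL, if_neg, add_zero]
          rintro rfl; exact hL ⟨hKcl, hKc⟩
      have h1 := hle _ hzm
      set F : V → V → ℝ := fun x y => if G.Adj x y then (t ^ 2 - 2 * t * s x y) else 0 with hF
      have h2 : ∑ x, ∑ y, (if G.Adj x y then (p x y - cov (fun L => w L + if L = K then t else 0) x y) ^ 2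
          else 0) = ∑ x, ∑ y, (if G.Adj x y then (s x y) ^ 2 else 0)
            + ∑ x, ∑ y, (if x ∈ K ∧ y ∈ K then F x y else 0) := by
        rw [← Finset.sum_add_distrib]
        refine Finset.sum_congr rfl fun x _ => ?_
        rw [← Finset.sum_add_distrib]
        refine Finset.sum_congr rfl fun y _ => ?_
        rw [cov_add]
        simp only [hF, hs]
        by_cases g1 : G.Adj x y
        · by_cases g2 : x ∈ K ∧ y ∈ K
          · simp only [if_pos g1, if_pos g2]; ring
          · simp only [if_pos g1, if_neg g2]; ring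
        · simp only [if_neg g1, ite_self, add_zero]
      rw [h2, hsumK, hsum3 F (fun x => by simp [hF]) (fun x y => by
        simp only [hF, G.adj_comm x y, hss x y])] at h1
      simp only [hF, if_pos gab, if_pos gac, if_pos gbc] at h1
      nlinarith
    linarith
  have k2 : 0 ≤ ∑ a, ∑ b, (if G.Adj a b then s a b * cov w a b else 0) := by
    have hsl : 0 ≤ 2 * ∑ a, ∑ b, (if G.Adj a b then s a b * cov w a b else 0) := by
      apply slope_nonneg (C := ∑ a, ∑ b, (if G.Adj a b then (cov w a b) ^ 2 else 0))
      have hsmall : ∀ᶠ t in 𝓝[>] (0 : ℝ), t < 1 :=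
        nhdsWithin_le_nhds (gt_mem_nhds (by norm_num))
      have hpos : ∀ᶠ t in 𝓝[>] (0 : ℝ), 0 < t := self_mem_nhdsWithin
      filter_upwards [hsmall, hpos] with t ht1 ht0
      have hzm : (fun L => (1 - t) * w L) ∈ Wei G B := by
        refine ⟨fun L => mul_nonneg (by linarith) (w0 L), fun L => ?_, fun L hL => ?_⟩
        · have := w0 L; have := wB L; nlinarith
        · simp only [wt L hL, mul_zero]
      have h1 := hle _ hzm
      have h2 : ∑ x, ∑ y, (if G.Adj x y then (p x y - cov (fun L => (1 - t) * w L) x y) ^ 2 else 0)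
          = ∑ x, ∑ y, (if G.Adj x y then (s x y) ^ 2 else 0)
            + t * (2 * ∑ x, ∑ y, (if G.Adj x y then s x y * cov w x y else 0))
            + t ^ 2 * ∑ x, ∑ y, (if G.Adj x y then (cov w x y) ^ 2 else 0) := by
        simp only [Finset.mul_sum, ← Finset.sum_add_distrib]
        refine Finset.sum_congr rfl fun x _ => Finset.sum_congr rfl fun y _ => ?_
        rw [cov_mul]
        simp only [hs]
        split_ifs <;> ring
      rw [h2] at h1
      linarith
    linarith
  -- the main inequality
  obtain ⟨h, hp, hhmin⟩ := exists_pot hdeg s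
  obtain ⟨y, y0, ys, yt, y1⟩ := exists_mat hss hp hhmin
  have hmain := sum_le_zero p0 p1 ps hpG hG k1 hp y0 ys yt y1
  have k3 : ∑ a, ∑ b, p a b * s a b = ∑ a, ∑ b, (if G.Adj a b then (s a b) ^ 2 else 0)
      + ∑ a, ∑ b, (if G.Adj a b then s a b * cov w a b else 0) := by
    simp only [← Finset.sum_add_distrib]
    refine Finset.sum_congr rfl fun x _ => Finset.sum_congr rfl fun y _ => ?_
    split_ifs with hxy
    · simp only [hs]; ring
    · have : p x y = 0 := by
        by_contra hc
        exact hxy (hpG x y (lt_of_le_of_ne (p0 x y) (Ne.symm hc)))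
      rw [this]; ring
  have g0 : ∀ a b, 0 ≤ (if G.Adj a b then (s a b) ^ 2 else 0) := by
    intro a b; split_ifs
    · exact sq_nonneg _
    · exact le_rfl
  have k4 : ∑ a, ∑ b, (if G.Adj a b then (s a b) ^ 2 else 0) = 0 :=
    le_antisymm (by linarith)
      (Finset.sum_nonneg fun a _ => Finset.sum_nonneg fun b _ => g0 a b)
  refine ⟨w, w0, fun K hK => ?_, fun a b hab => ?_⟩
  · by_contra hcon
    exact hK (wt K hcon)
  · have h1 := (Finset.sum_eq_zero_iff_of_nonneg
      (fun a _ => Finset.sum_nonneg fun b _ => g0 a b)).1 k4 a (Finset.mem_univ a)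
    have h2 := (Finset.sum_eq_zero_iff_of_nonneg (fun b _ => g0 a b)).1 h1 b (Finset.mem_univ b)
    rw [if_pos hab] at h2
    have h3 : s a b = 0 := pow_eq_zero_iff (two_ne_zero) |>.1 h2
    simp only [hs] at h3
    linarith

/-- **Weighted fractional Nash-Williams theorem** (exact, no slack): if `p` is a symmetric
weighting of the pairs with values in `[0,1]`, zero on the diagonal, all of whose vertex sums are
at least `(3/4) n`, then `p` is the shadow of a nonnegative weighting of the triangles. -/
theorem weighted {p : V → V → ℝ} (p0 : ∀ a b, 0 ≤ p a b) (p1 : ∀ a b, p a b ≤ 1)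
    (ps : ∀ a b, p a b = p b a) (pd : ∀ a, p a a = 0)
    (hG : ∀ a, (3 / 4 : ℝ) * Fintype.card V ≤ ∑ b, p a b) :
    ∃ o : V → V → V → ℝ, (∀ a b c, 0 ≤ o a b c) ∧
      (∀ a b c, o a b c = o b a c) ∧ (∀ a b c, o a b c = o a c b) ∧
      (∀ a b c, o a b c ≠ 0 → a ≠ b ∧ a ≠ c ∧ b ≠ c) ∧
      ∀ a b, ∑ c, o a b c = p a b := by
  set G : SimpleGraph V :=
    { Adj := fun a b => 0 < p a b
      symm := ⟨fun a b h => by
        show 0 < p b a
        rw [← ps a b]; exact h⟩
      loopless := ⟨fun a h => by rw [pd a] at h; exact lt_irrefl _ h⟩ } with hGdef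
  obtain ⟨w, w0, w1, w2⟩ := exists_weights (G := G) p0 p1 ps (fun a b h => h) hG
  refine ⟨fun a b c => if a ≠ b ∧ a ≠ c ∧ b ≠ c then w {a, b, c} else 0, ?_, ?_, ?_, ?_, ?_⟩
  · intro a b c
    show 0 ≤ if a ≠ b ∧ a ≠ c ∧ b ≠ c then w {a, b, c} else 0
    split_ifs
    · exact w0 _
    · exact le_rfl
  · intro a b c
    show (if a ≠ b ∧ a ≠ c ∧ b ≠ c then w {a, b, c} else 0)
      = if b ≠ a ∧ b ≠ c ∧ a ≠ c then w {b, a, c} else 0
    have h1 : (a ≠ b ∧ a ≠ c ∧ b ≠ c) ↔ (b ≠ a ∧ b ≠ c ∧ a ≠ c) := by
      constructor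
      · rintro ⟨x, y, z⟩; exact ⟨x.symm, z, y⟩
      · rintro ⟨x, y, z⟩; exact ⟨x.symm, z, y⟩
    have h2 : ({a, b, c} : Finset V) = {b, a, c} := by
      ext x; simp only [Finset.mem_insert, Finset.mem_singleton]; tauto
    rw [h2]
    simp only [h1]
  · intro a b c
    show (if a ≠ b ∧ a ≠ c ∧ b ≠ c then w {a, b, c} else 0)
      = if a ≠ c ∧ a ≠ b ∧ c ≠ b then w {a, c, b} else 0
    have h1 : (a ≠ b ∧ a ≠ c ∧ b ≠ c) ↔ (a ≠ c ∧ a ≠ b ∧ c ≠ b) := by
      constructor
      · rintro ⟨x, y, z⟩; exact ⟨y, x, z.symm⟩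
      · rintro ⟨x, y, z⟩; exact ⟨y, x, z.symm⟩
    have h2 : ({a, b, c} : Finset V) = {a, c, b} := by
      ext x; simp only [Finset.mem_insert, Finset.mem_singleton]; tauto
    rw [h2]
    simp only [h1]
  · intro a b c h
    by_contra hc
    exact h (if_neg hc)
  · intro a b
    show ∑ c, (if a ≠ b ∧ a ≠ c ∧ b ≠ c then w {a, b, c} else 0) = p a b
    by_cases hab : a = b
    · subst hab
      rw [pd a]
      exact Finset.sum_eq_zero fun c _ => if_neg fun h => h.1 rfl
    by_cases hpab : p a b = 0
    · rw [hpab]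
      refine Finset.sum_eq_zero fun c _ => ?_
      split_ifs with hd
      · by_contra hne
        obtain ⟨hcl, -⟩ := w1 _ hne
        have : G.Adj a b := hcl (by simp) (by simp) hab
        have h3 : 0 < p a b := this
        rw [hpab] at h3
        exact lt_irrefl _ h3
      · rfl
    · have hadj : G.Adj a b := lt_of_le_of_ne (p0 a b) (Ne.symm hpab)
      rw [← w2 a b hadj]
      unfold cov
      have hK : ∀ K : Finset V, (if a ∈ K ∧ b ∈ K then w K else 0)
          = ∑ c, if (a ≠ b ∧ a ≠ c ∧ b ≠ c) ∧ K = {a, b, c} then w K else 0 := by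
        intro K
        by_cases hwK : w K = 0
        · rw [hwK]; simp
        obtain ⟨-, hcard⟩ := w1 K hwK
        by_cases hm : a ∈ K ∧ b ∈ K
        · obtain ⟨ha, hb⟩ := hm
          rw [if_pos ⟨ha, hb⟩]
          obtain ⟨c, hc⟩ : ∃ c, (K.erase a).erase b = {c} := by
            rw [← Finset.card_eq_one, Finset.card_erase_of_mem, Finset.card_erase_of_mem ha, hcard]
            exact Finset.mem_erase.2 ⟨Ne.symm hab, hb⟩
          have hcm : c ∈ (K.erase a).erase b := by rw [hc]; simp
          simp only [Finset.mem_erase] at hcm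
          obtain ⟨c1, c2, c3⟩ := hcm
          have hKe : K = {a, b, c} := by
            rw [← Finset.insert_erase ha, ← Finset.insert_erase (Finset.mem_erase.2 ⟨Ne.symm hab, hb⟩),
              hc]
          rw [Finset.sum_eq_single c]
          · rw [if_pos ⟨⟨hab, Ne.symm c2, Ne.symm c1⟩, hKe⟩]
          · intro c' _ hne
            rw [if_neg]
            rintro ⟨⟨d1, d2, d3⟩, hK'⟩
            have : c' ∈ K := by rw [hK']; simp
            rw [hKe] at this
            simp only [Finset.mem_insert, Finset.mem_singleton] at this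
            rcases this with rfl | rfl | rfl
            · exact d2 rfl
            · exact d3 rfl
            · exact hne rfl
          · intro h; exact absurd (Finset.mem_univ c) h
        · rw [if_neg hm]
          symm
          refine Finset.sum_eq_zero fun c _ => if_neg ?_
          rintro ⟨-, hK'⟩
          apply hm
          rw [hK']; simp
      rw [Finset.sum_congr rfl fun K _ => hK K, Finset.sum_comm]
      refine Finset.sum_congr rfl fun c _ => ?_
      by_cases hd : a ≠ b ∧ a ≠ c ∧ b ≠ c
      · simp only [hd, ne_eq, not_false_eq_true, and_self, true_and, if_true]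
        rw [Finset.sum_ite_eq']
        simp
      · simp only [hd, false_and, if_false, Finset.sum_const_zero]

end Pool.WFN
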