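import Pool.Agent.WFN.Main

/-!
Counting the bad samples.
-/

open Finset
open scoped Classical

namespace Pool.WFN

variable {V : Type*} [Fintype V]

lemma sum_pi {ι : Type*} [Fintype ι] [DecidableEq ι] (g : ι → V → ℝ) :
    ∑ x : ι → V, ∏ u, g u (x u) = ∏ u, ∑ v, g u v := by
  rw [Finset.prod_univ_sum, Fintype.piFinset_univ]

lemma exp_neg_le {y : ℝ} (hy : 0 ≤ y) : Real.exp (-y) ≤ 1 - y + y ^ 2 / 2 := by
  have h1 := Real.quadratic_le_exp_of_nonneg hy
  have h2 : 0 < 1 + y + y ^ 2 / 2 := by positivity
  rw [Real.exp_neg, inv_eq_one_div, div_le_iff₀ (Real.exp_pos y)]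
  have h3 : 0 < 1 - y + y ^ 2 / 2 := by nlinarith [sq_nonneg (y - 1)]
  have h4 : (1 - y + y ^ 2 / 2) * (1 + y + y ^ 2 / 2) ≤ (1 - y + y ^ 2 / 2) * Real.exp y :=
    mul_le_mul_of_nonneg_left h1 h3.le
  have h5 : (1 - y + y ^ 2 / 2) * (1 + y + y ^ 2 / 2) = 1 + y ^ 4 / 4 := by ring
  have h6 : 0 ≤ y ^ 4 := by positivity
  linarith

/-- one exponential moment -/
lemma exp_moment {f : V → ℝ} {m l : ℝ} (hl : 0 ≤ l) (f0 : ∀ z, 0 ≤ f z) (f1 : ∀ z, f z ≤ 1)
    (hm : m * Fintype.card V ≤ ∑ z, f z) :
    ∑ z, Real.exp (-(l * f z)) ≤ Fintype.card V * Real.exp (-(l * m) + l ^ 2 / 2) := by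
  have h1 : ∀ z, Real.exp (-(l * f z)) ≤ 1 - l * f z + l ^ 2 / 2 := by
    intro z
    refine (exp_neg_le (mul_nonneg hl (f0 z))).trans ?_
    have h2 : (l * f z) ^ 2 ≤ l ^ 2 := by
      rw [mul_pow]
      have : f z ^ 2 ≤ 1 := pow_le_one₀ (f0 z) (f1 z)
      nlinarith [sq_nonneg l]
    linarith
  calc ∑ z, Real.exp (-(l * f z)) ≤ ∑ z, (1 - l * f z + l ^ 2 / 2) :=
        Finset.sum_le_sum fun z _ => h1 z
    _ = Fintype.card V * (1 + l ^ 2 / 2) - l * ∑ z, f z := by
        rw [Finset.sum_add_distrib, Finset.sum_sub_distrib, ← Finset.mul_sum]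
        simp only [Finset.sum_const, Finset.card_univ, nsmul_eq_mul]
        ring
    _ ≤ Fintype.card V * (1 + l ^ 2 / 2) - l * (m * Fintype.card V) := by
        have := mul_le_mul_of_nonneg_left hm hl
        linarith
    _ = Fintype.card V * ((-(l * m) + l ^ 2 / 2) + 1) := by ring
    _ ≤ Fintype.card V * Real.exp (-(l * m) + l ^ 2 / 2) := by
        refine mul_le_mul_of_nonneg_left (Real.add_one_le_exp _) (by positivity)

/-- sum over the samples through a given pair -/
lemma tsum {s : ℕ} {i j : Fin s} (hij : i ≠ j) (t : Fin s) (a b : V) {E : V → V → ℝ}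
    (E0 : ∀ v z, 0 ≤ E v z) {R : ℝ} (hE : ∀ v, ∑ z, E v z ≤ R) (hR : R ≤ Fintype.card V)
    (hR0 : 0 ≤ R) :
    ∑ x : Fin s → V, (if x i = a then (1 : ℝ) else 0) * (if x j = b then 1 else 0) *
      ∏ u, (if u = i ∨ u = j ∨ u = t then 1 else E (x t) (x u))
      ≤ Fintype.card V * R ^ (s - 3) := by
  set n : ℝ := (Fintype.card V : ℝ) with hn
  have hn0 : 0 ≤ n := by rw [hn]; positivity
  set g : V → Fin s → V → ℝ := fun v u z =>
    (if u = i then (if z = a then (1 : ℝ) else 0) else 1) *
    (if u = j then (if z = b then (1 : ℝ) else 0) else 1) *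
    (if u = t then (if z = v then (1 : ℝ) else 0) else 1) *
    (if u = i ∨ u = j ∨ u = t then 1 else E v z) with hg
  have prod_one : ∀ (q : Fin s) (f : Fin s → ℝ), ∏ u, (if u = q then f u else 1) = f q := by
    intro q f
    rw [Finset.prod_ite_eq' univ q f]
    simp
  have e1 : ∀ x : Fin s → V, (if x i = a then (1 : ℝ) else 0) * (if x j = b then 1 else 0) *
      ∏ u, (if u = i ∨ u = j ∨ u = t then 1 else E (x t) (x u)) = ∑ v, ∏ u, g v u (x u) := by
    intro x
    have e2 : ∀ v, ∏ u, g v u (x u) = (if x i = a then (1 : ℝ) else 0) *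
        (if x j = b then 1 else 0) * (if x t = v then 1 else 0) *
        ∏ u, (if u = i ∨ u = j ∨ u = t then 1 else E v (x u)) := by
      intro v
      simp only [hg, Finset.prod_mul_distrib]
      rw [prod_one i (fun u => if x u = a then (1 : ℝ) else 0),
        prod_one j (fun u => if x u = b then (1 : ℝ) else 0),
        prod_one t (fun u => if x u = v then (1 : ℝ) else 0)]
    simp only [e2]
    rw [Finset.sum_eq_single (x t)]
    · rw [if_pos rfl, mul_one]
    · intro v _ hv
      rw [if_neg (Ne.symm hv)]; ring
    · intro h; exact absurd (Finset.mem_univ _) h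
  rw [Finset.sum_congr rfl fun x _ => e1 x]
  rw [Finset.sum_comm]
  simp only [fun v => sum_pi (g v)]
  have g0 : ∀ v u z, 0 ≤ g v u z := by
    intro v u z
    simp only [hg]
    refine mul_nonneg (mul_nonneg (mul_nonneg ?_ ?_) ?_) ?_
    · split_ifs <;> norm_num
    · split_ifs <;> norm_num
    · split_ifs <;> norm_num
    · split_ifs
      · norm_num
      · exact E0 _ _
  have hs2 : 2 ≤ s := by
    have h1 := i.2; have h2 := j.2
    by_contra hc
    apply hij
    ext
    omega
  have sum_ind : ∀ q : V, ∑ z, (if z = q then (1 : ℝ) else 0) = 1 := by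
    intro q; simp
  -- generic factor bounds
  have fo : ∀ v u, u ≠ i → u ≠ j → u ≠ t → ∑ z, g v u z ≤ R := by
    intro v u h1 h2 h3
    refine le_trans (le_of_eq (Finset.sum_congr rfl fun z _ => ?_)) (hE v)
    simp only [hg, h1, h2, h3, if_false, or_self, one_mul]
  have fi : ∀ v, ∑ z, g v i z ≤ if t = i then (if a = v then 1 else 0) else 1 := by
    intro v
    have h1 : ∀ z, g v i z ≤ (if z = a then (1 : ℝ) else 0) * (if t = i then (if a = v then 1 else 0) else 1) := by
      intro z
      simp only [hg, if_true, true_or, mul_one]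
      by_cases hz : z = a
      · subst hz
        simp only [if_true, one_mul]
        by_cases hti : t = i
        · subst hti
          simp only [if_true]
          split_ifs <;> norm_num
        · rw [if_neg (Ne.symm hti), if_neg hti]
          split_ifs <;> norm_num
      · simp [hz]
    refine (Finset.sum_le_sum fun z _ => h1 z).trans ?_
    rw [← Finset.sum_mul, sum_ind, one_mul]
  have fj : ∀ v, ∑ z, g v j z ≤ if t = j then (if b = v then 1 else 0) else 1 := by
    intro v
    have h1 : ∀ z, g v j z ≤ (if z = b then (1 : ℝ) else 0) * (if t = j then (if b = v then 1 else 0) else 1) := by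
      intro z
      simp only [hg, if_true, true_or, or_true, mul_one]
      by_cases hz : z = b
      · subst hz
        simp only [if_true, mul_one]
        by_cases htj : t = j
        · subst htj
          simp only [if_true]
          split_ifs <;> norm_num
        · rw [if_neg (Ne.symm htj), if_neg htj]
          split_ifs <;> norm_num
      · simp [hz]
    refine (Finset.sum_le_sum fun z _ => h1 z).trans ?_
    rw [← Finset.sum_mul, sum_ind, one_mul]
  have ft : ∀ v, ∑ z, g v t z ≤ 1 := by
    intro v
    have h1 : ∀ z, g v t z ≤ (if z = v then (1 : ℝ) else 0) := by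
      intro z
      simp only [hg, if_true, or_true, mul_one]
      split_ifs <;> norm_num
    refine (Finset.sum_le_sum fun z _ => h1 z).trans ?_
    rw [sum_ind]
  by_cases hti : t = i
  · -- t = i
    subst hti
    have h1 : ∀ v, ∏ u, ∑ z, g v u z ≤ (if a = v then 1 else 0) * R ^ (s - 2) := by
      intro v
      have h2 : ∏ u, ∑ z, g v u z ≤ ∏ u, (if u = t then (if a = v then 1 else 0) else
          if u = j then 1 else R) := by
        refine Finset.prod_le_prod (fun u _ => Finset.sum_nonneg fun z _ => g0 v u z) fun u _ => ?_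
        by_cases h3 : u = t
        · subst h3
          simpa using fi v
        · rw [if_neg h3]
          by_cases h4 : u = j
          · subst h4
            have := fj v
            rw [if_neg hij] at this
            simpa using this
          · rw [if_neg h4]
            exact fo v u h3 h4 h3
      refine h2.trans (le_of_eq ?_)
      rw [← Finset.mul_prod_erase univ _ (Finset.mem_univ t), if_pos rfl]
      congr 1
      have hj : j ∈ univ.erase t := Finset.mem_erase.2 ⟨Ne.symm hij, Finset.mem_univ _⟩
      rw [← Finset.mul_prod_erase _ _ hj, if_neg (Ne.symm hij), if_pos rfl, one_mul]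
      rw [Finset.prod_congr rfl (g := fun _ => R)]
      · rw [Finset.prod_const, Finset.card_erase_of_mem hj, Finset.card_erase_of_mem (Finset.mem_univ _)]
        simp only [Finset.card_univ, Fintype.card_fin]
        congr 1
      · intro u hu
        simp only [Finset.mem_erase, Finset.mem_univ, and_true] at hu
        rw [if_neg hu.2, if_neg hu.1]
    refine (Finset.sum_le_sum fun v _ => h1 v).trans ?_
    rw [← Finset.sum_mul]
    have : ∑ v, (if a = v then (1 : ℝ) else 0) = 1 := by simp
    rw [this, one_mul]
    by_cases hs3 : s = 2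
    · subst hs3
      simp only [le_refl, Nat.sub_self, pow_zero]
      have : (1 : ℝ) ≤ n := by
        rw [hn]
        exact_mod_cast Fintype.card_pos_iff.2 ⟨a⟩
      simpa using this
    · have : s - 2 = (s - 3) + 1 := by omega
      rw [this, pow_succ, mul_comm]
      exact mul_le_mul_of_nonneg_right hR (pow_nonneg hR0 _)
  by_cases htj : t = j
  · subst htj
    have h1 : ∀ v, ∏ u, ∑ z, g v u z ≤ (if b = v then 1 else 0) * R ^ (s - 2) := by
      intro v
      have h2 : ∏ u, ∑ z, g v u z ≤ ∏ u, (if u = t then (if b = v then 1 else 0) else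
          if u = i then 1 else R) := by
        refine Finset.prod_le_prod (fun u _ => Finset.sum_nonneg fun z _ => g0 v u z) fun u _ => ?_
        by_cases h3 : u = t
        · subst h3
          simpa using fj v
        · rw [if_neg h3]
          by_cases h4 : u = i
          · subst h4
            have := fi v
            rw [if_neg (Ne.symm hij)] at this
            simpa using this
          · rw [if_neg h4]
            exact fo v u h4 h3 h3
      refine h2.trans (le_of_eq ?_)
      rw [← Finset.mul_prod_erase univ _ (Finset.mem_univ t), if_pos rfl]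
      congr 1
      have hj : i ∈ univ.erase t := Finset.mem_erase.2 ⟨hij, Finset.mem_univ _⟩
      rw [← Finset.mul_prod_erase _ _ hj, if_neg hij, if_pos rfl, one_mul]
      rw [Finset.prod_congr rfl (g := fun _ => R)]
      · rw [Finset.prod_const, Finset.card_erase_of_mem hj, Finset.card_erase_of_mem (Finset.mem_univ _)]
        simp only [Finset.card_univ, Fintype.card_fin]
        congr 1
      · intro u hu
        simp only [Finset.mem_erase, Finset.mem_univ, and_true] at hu
        rw [if_neg hu.2, if_neg hu.1]
    refine (Finset.sum_le_sum fun v _ => h1 v).trans ?_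
    rw [← Finset.sum_mul]
    have : ∑ v, (if b = v then (1 : ℝ) else 0) = 1 := by simp
    rw [this, one_mul]
    by_cases hs3 : s = 2
    · subst hs3
      have : (1 : ℝ) ≤ n := by
        rw [hn]
        exact_mod_cast Fintype.card_pos_iff.2 ⟨a⟩
      simpa using this
    · have : s - 2 = (s - 3) + 1 := by omega
      rw [this, pow_succ, mul_comm]
      exact mul_le_mul_of_nonneg_right hR (pow_nonneg hR0 _)
  -- t different from both
  have h1 : ∀ v, ∏ u, ∑ z, g v u z ≤ R ^ (s - 3) := by
    intro v
    have h2 : ∏ u, ∑ z, g v u z ≤ ∏ u, (if u = t then 1 else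
        if u = i then 1 else if u = j then 1 else R) := by
      refine Finset.prod_le_prod (fun u _ => Finset.sum_nonneg fun z _ => g0 v u z) fun u _ => ?_
      by_cases h3 : u = t
      · subst h3
        simpa using ft v
      · rw [if_neg h3]
        by_cases h4 : u = i
        · subst h4
          have := fi v
          rw [if_neg hti] at this
          simpa using this
        · rw [if_neg h4]
          by_cases h5 : u = j
          · subst h5
            have := fj v
            rw [if_neg htj] at this
            simpa using this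
          · rw [if_neg h5]
            exact fo v u h4 h5 h3
    refine h2.trans (le_of_eq ?_)
    have hi : i ∈ univ.erase t := Finset.mem_erase.2 ⟨Ne.symm hti, Finset.mem_univ _⟩
    have hj : j ∈ (univ.erase t).erase i :=
      Finset.mem_erase.2 ⟨Ne.symm hij, Finset.mem_erase.2 ⟨Ne.symm htj, Finset.mem_univ _⟩⟩
    rw [← Finset.mul_prod_erase univ _ (Finset.mem_univ t), if_pos rfl, one_mul,
      ← Finset.mul_prod_erase _ _ hi, if_neg (Ne.symm hti), if_pos rfl, one_mul,
      ← Finset.mul_prod_erase _ _ hj, if_neg (Ne.symm htj), if_neg (Ne.symm hij), if_pos rfl, one_mul]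
    rw [Finset.prod_congr rfl (g := fun _ => R)]
    · rw [Finset.prod_const, Finset.card_erase_of_mem hj, Finset.card_erase_of_mem hi,
        Finset.card_erase_of_mem (Finset.mem_univ _)]
      simp only [Finset.card_univ, Fintype.card_fin]
      congr 1
    · intro u hu
      simp only [Finset.mem_erase, Finset.mem_univ, and_true] at hu
      rw [if_neg hu.2.2, if_neg hu.2.1, if_neg hu.1]
  refine (Finset.sum_le_sum fun v _ => h1 v).trans ?_
  rw [Finset.sum_const, Finset.card_univ, nsmul_eq_mul]

end Pool.WFN
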