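import Pool.Agent.WFN.Sample

/-!
The spread version.
-/

open Finset
open scoped Classical

namespace Pool.WFN

variable {V : Type*} [Fintype V]

/-- number of samples with prescribed values on a set of indices -/
lemma cnt {s : ℕ} (S : Finset (Fin s)) (f : Fin s → V) :
    ∑ x : Fin s → V, ∏ u ∈ S, (if x u = f u then (1 : ℝ) else 0)
      = (Fintype.card V : ℝ) ^ (s - S.card) := by
  have h1 : ∀ x : Fin s → V, ∏ u ∈ S, (if x u = f u then (1 : ℝ) else 0)
      = ∏ u, (fun u z => if u ∈ S then (if z = f u then (1 : ℝ) else 0) else 1 :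
        Fin s → V → ℝ) u (x u) := by
    intro x
    simp only
    rw [Finset.prod_ite_mem, Finset.univ_inter]
  have h2 : ∀ u : Fin s, ∑ v, (fun u z => if u ∈ S then (if z = f u then (1 : ℝ) else 0) else 1 :
        Fin s → V → ℝ) u v = if u ∈ S then 1 else (Fintype.card V : ℝ) := by
    intro u
    simp only
    split_ifs with h
    · simp
    · simp
  calc ∑ x : Fin s → V, ∏ u ∈ S, (if x u = f u then (1 : ℝ) else 0)
      = ∑ x : Fin s → V, ∏ u, (fun u z => if u ∈ S then (if z = f u then (1 : ℝ) else 0) else 1 :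
        Fin s → V → ℝ) u (x u) := Finset.sum_congr rfl fun x _ => h1 x
    _ = _ := by
      refine (sum_pi (fun (u : Fin s) (z : V) => if u ∈ S then (if z = f u then (1 : ℝ) else 0)
        else 1)).trans ?_
      rw [Finset.prod_congr rfl fun u _ => h2 u, Finset.prod_ite, Finset.prod_const_one, one_mul,
        Finset.prod_const]
      congr 1
      have h3 : univ.filter (fun u : Fin s => u ∉ S) = univ \ S := by
        ext u; simp
      rw [h3, Finset.card_sdiff_of_subset (Finset.subset_univ S), Finset.card_univ,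
        Fintype.card_fin]

/-- good samples -/
def Good (p : V → V → ℝ) (ε : ℝ) {s : ℕ} (x : Fin s → V) : Prop :=
  ∀ t, (3 / 4 + ε / 2) * s ≤ ∑ u, p (x t) (x u)

/-- bad samples through a given pair are rare -/
lemma bad_le {p : V → V → ℝ} (p0 : ∀ a b, 0 ≤ p a b) (p1 : ∀ a b, p a b ≤ 1) {ε : ℝ}
    (hε : 0 < ε) (hε4 : ε ≤ 1 / 4) (hG : ∀ a, (3 / 4 + ε) * Fintype.card V ≤ ∑ b, p a b)
    {s : ℕ} (hs : 12 / ε ≤ s) {i j : Fin s} (hij : i ≠ j) (a b : V) :
    ∑ x : Fin s → V, (if x i = a then (1 : ℝ) else 0) * (if x j = b then 1 else 0) *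
      (if Good p ε x then 0 else 1)
      ≤ s * (Fintype.card V : ℝ) ^ (s - 2) * Real.exp (-(ε ^ 2 * s / 32)) := by
  set n : ℝ := (Fintype.card V : ℝ) with hn
  have hn0 : 0 ≤ n := by rw [hn]; positivity
  set l : ℝ := ε / 4 with hl
  have hl0 : 0 ≤ l := by positivity
  have hs' : 12 ≤ ε * s := by
    rw [div_le_iff₀ hε] at hs; linarith
  have hs48 : 48 ≤ (s : ℝ) := by nlinarith
  have hs3 : 3 ≤ s := by
    have : (3 : ℝ) ≤ s := by linarith
    exact_mod_cast this
  set c : ℝ := (3 / 4 + ε / 2) * s with hc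
  have h1 : ∀ x : Fin s → V, (if Good p ε x then (0 : ℝ) else 1) ≤
      ∑ t, Real.exp (l * c) * ∏ u, (if u = i ∨ u = j ∨ u = t then 1
        else Real.exp (-(l * p (x t) (x u)))) := by
    intro x
    have hpos : ∀ t, 0 ≤ Real.exp (l * c) * ∏ u, (if u = i ∨ u = j ∨ u = t then 1
        else Real.exp (-(l * p (x t) (x u)))) := by
      intro t
      refine mul_nonneg (Real.exp_pos _).le (Finset.prod_nonneg fun u _ => ?_)
      split_ifs
      · norm_num
      · exact (Real.exp_pos _).le
    split_ifs with hgood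
    · exact Finset.sum_nonneg fun t _ => hpos t
    · unfold Good at hgood
      push Not at hgood
      obtain ⟨t, ht⟩ := hgood
      refine le_trans ?_ (Finset.single_le_sum (f := fun t => Real.exp (l * c) *
        ∏ u, (if u = i ∨ u = j ∨ u = t then 1 else Real.exp (-(l * p (x t) (x u)))))
        (fun t _ => hpos t) (Finset.mem_univ t))
      have h2 : Real.exp (-(l * ∑ u, p (x t) (x u))) ≤
          ∏ u, (if u = i ∨ u = j ∨ u = t then 1 else Real.exp (-(l * p (x t) (x u)))) := by
        rw [Finset.mul_sum, ← Finset.sum_neg_distrib, Real.exp_sum]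
        refine Finset.prod_le_prod (fun u _ => (Real.exp_pos _).le) fun u _ => ?_
        split_ifs
        · rw [Real.exp_le_one_iff]
          have := mul_nonneg hl0 (p0 (x t) (x u))
          linarith
        · exact le_rfl
      calc (1 : ℝ) ≤ Real.exp (l * c - l * ∑ u, p (x t) (x u)) := by
            refine Real.one_le_exp ?_
            have := mul_le_mul_of_nonneg_left ht.le hl0
            rw [← hc] at this
            linarith
        _ = Real.exp (l * c) * Real.exp (-(l * ∑ u, p (x t) (x u))) := by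
            rw [← Real.exp_add]; ring_nf
        _ ≤ _ := mul_le_mul_of_nonneg_left h2 (Real.exp_pos _).le
  set m : ℝ := 3 / 4 + ε with hm
  set R : ℝ := n * Real.exp (-(l * m) + l ^ 2 / 2) with hR
  have hR0 : 0 ≤ R := mul_nonneg hn0 (Real.exp_pos _).le
  have hle1 : -(l * m) + l ^ 2 / 2 ≤ 0 := by rw [hl, hm]; nlinarith
  have hRn : R ≤ n := by
    rw [hR]
    have : Real.exp (-(l * m) + l ^ 2 / 2) ≤ 1 := by rw [Real.exp_le_one_iff]; exact hle1
    exact mul_le_of_le_one_right hn0 this
  have hE : ∀ v, ∑ z, Real.exp (-(l * p v z)) ≤ R := fun v =>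
    exp_moment hl0 (p0 v) (p1 v) (hG v)
  have h3 : ∀ t : Fin s, ∑ x : Fin s → V, (if x i = a then (1 : ℝ) else 0) *
      (if x j = b then 1 else 0) * ∏ u, (if u = i ∨ u = j ∨ u = t then 1
        else Real.exp (-(l * p (x t) (x u)))) ≤ n * R ^ (s - 3) := fun t =>
    tsum hij t a b (E := fun v z => Real.exp (-(l * p v z))) (fun v z => (Real.exp_pos _).le)
      hE hRn hR0
  calc ∑ x : Fin s → V, (if x i = a then (1 : ℝ) else 0) * (if x j = b then 1 else 0) *
      (if Good p ε x then 0 else 1)
      ≤ ∑ x : Fin s → V, (if x i = a then (1 : ℝ) else 0) * (if x j = b then 1 else 0) *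
        ∑ t, Real.exp (l * c) * ∏ u, (if u = i ∨ u = j ∨ u = t then 1
          else Real.exp (-(l * p (x t) (x u)))) := by
        refine Finset.sum_le_sum fun x _ => mul_le_mul_of_nonneg_left (h1 x) ?_
        split_ifs <;> norm_num
    _ = ∑ t, Real.exp (l * c) * ∑ x : Fin s → V, (if x i = a then (1 : ℝ) else 0) *
        (if x j = b then 1 else 0) * ∏ u, (if u = i ∨ u = j ∨ u = t then 1
          else Real.exp (-(l * p (x t) (x u)))) := by
        simp only [Finset.mul_sum]
        rw [Finset.sum_comm]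
        refine Finset.sum_congr rfl fun t _ => Finset.sum_congr rfl fun x _ => ?_
        ring
    _ ≤ ∑ t : Fin s, Real.exp (l * c) * (n * R ^ (s - 3)) :=
        Finset.sum_le_sum fun t _ => mul_le_mul_of_nonneg_left (h3 t) (Real.exp_pos _).le
    _ = s * (n ^ (s - 2) * (Real.exp (l * c) * Real.exp (-(l * m) + l ^ 2 / 2) ^ (s - 3))) := by
        rw [Finset.sum_const, Finset.card_univ, Fintype.card_fin, nsmul_eq_mul, hR, mul_pow]
        have : s - 2 = (s - 3) + 1 := by omega
        rw [this, pow_succ]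
        ring
    _ ≤ s * (n ^ (s - 2) * Real.exp (-(ε ^ 2 * s / 32))) := by
        refine mul_le_mul_of_nonneg_left (mul_le_mul_of_nonneg_left ?_ (by positivity))
          (by positivity)
        rw [← Real.exp_nat_mul, ← Real.exp_add, Real.exp_le_exp]
        have hcast : ((s - 3 : ℕ) : ℝ) = s - 3 := by
          rw [Nat.cast_sub hs3]; norm_num
        rw [hcast, hc, hl, hm]
        nlinarith
    _ = _ := by ring

end Pool.WFN
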