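import Pool.Agent.WFN.Spread

/-!
Spread weighted fractional triangle decompositions.
-/

open Finset
open scoped Classical

namespace Pool.WFN

/-- the sample size -/
noncomputable def sz (ε : ℝ) : ℕ := ⌈8192 / ε ^ 5⌉₊

lemma sz_ge {ε : ℝ} (hε : 0 < ε) (hε4 : ε ≤ 1 / 4) : 12 / ε ≤ sz ε := by
  refine le_trans ?_ (Nat.le_ceil _)
  rw [div_le_div_iff₀ hε (by positivity)]
  have h1 : ε ^ 4 ≤ 1 := pow_le_one₀ hε.le (by linarith)
  have h2 : ε ^ 5 = ε * ε ^ 4 := by ring
  nlinarith [mul_nonneg hε.le (sub_nonneg.2 h1)]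

lemma sz_exp {ε : ℝ} (hε : 0 < ε) :
    sz ε * Real.exp (-(ε ^ 2 * sz ε / 32)) ≤ ε / 4 := by
  set s : ℝ := (sz ε : ℝ) with hs
  have hs1 : 8192 / ε ^ 5 ≤ s := Nat.le_ceil _
  have hs0 : 0 < s := lt_of_lt_of_le (by positivity) hs1
  set y : ℝ := ε ^ 2 * s / 32 with hy
  have hy0 : 0 < y := by positivity
  have h1 := Real.quadratic_le_exp_of_nonneg hy0.le
  have h2 : y ^ 2 / 2 ≤ Real.exp y := by linarith
  rw [Real.exp_neg]
  have h3 : s * (Real.exp y)⁻¹ ≤ s * (y ^ 2 / 2)⁻¹ := by
    refine mul_le_mul_of_nonneg_left (inv_anti₀ (by positivity) h2) hs0.le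
  refine h3.trans ?_
  rw [← div_eq_mul_inv, div_le_iff₀ (by positivity)]
  rw [div_le_iff₀ (by positivity)] at hs1
  have h4 : ε / 4 * (y ^ 2 / 2) = s * (s * ε ^ 5) / 8192 := by
    rw [hy]; ring
  rw [h4]
  have h5 : s * 8192 ≤ s * (s * ε ^ 5) := mul_le_mul_of_nonneg_left hs1 hs0.le
  linarith

variable {V : Type*} [Fintype V]

/-- **Spread weighted fractional Nash-Williams theorem**: with slack `ε` the weighting of the
triangles can be chosen with all weights at most `2 * sz ε / n`. -/
theorem spread {p : V → V → ℝ} (p0 : ∀ a b, 0 ≤ p a b) (p1 : ∀ a b, p a b ≤ 1)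
    (ps : ∀ a b, p a b = p b a) (pd : ∀ a, p a a = 0) {ε : ℝ} (hε : 0 < ε)
    (hG : ∀ a, (3 / 4 + ε) * Fintype.card V ≤ ∑ b, p a b) :
    ∃ o : V → V → V → ℝ, (∀ a b c, 0 ≤ o a b c) ∧
      (∀ a b c, o a b c = o b a c) ∧ (∀ a b c, o a b c = o a c b) ∧
      (∀ a b c, o a b c ≤ 2 * sz ε / Fintype.card V) ∧
      ∀ a b, ∑ c, o a b c = p a b := by
  rcases isEmpty_or_nonempty V with hV | hV
  · exact ⟨fun _ _ _ => 0, fun _ _ _ => le_rfl, fun _ _ _ => rfl, fun _ _ _ => rfl,
      fun a => (hV.false a).elim, fun a => (hV.false a).elim⟩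
  set n : ℝ := (Fintype.card V : ℝ) with hn
  have hn0 : 0 < n := by rw [hn]; exact_mod_cast Fintype.card_pos
  have hε4 : ε ≤ 1 / 4 := by
    obtain ⟨a⟩ := hV
    have h1 : ∑ b, p a b ≤ ∑ _b : V, (1 : ℝ) := Finset.sum_le_sum fun b _ => p1 a b
    have h2 : ∑ _b : V, (1 : ℝ) = n := by simp [hn]
    have h3 := hG a
    rw [h2] at h1
    by_contra hc
    push Not at hc
    have : n * (1 / 4) < n * ε := mul_lt_mul_of_pos_left hc hn0
    nlinarith
  set s : ℕ := sz ε with hsdef
  have hs12 : 12 / ε ≤ s := sz_ge hε hε4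
  have hs' : 12 ≤ ε * s := by
    rw [div_le_iff₀ hε] at hs12; linarith
  have hs48 : 48 ≤ (s : ℝ) := by nlinarith
  have hs3 : 3 ≤ s := by
    have : (3 : ℝ) ≤ s := by linarith
    exact_mod_cast this
  set d : ℝ := s * Real.exp (-(ε ^ 2 * s / 32)) with hd
  have hd0 : 0 ≤ d := by positivity
  have hd4 : d ≤ ε / 4 := sz_exp hε
  have hd16 : d ≤ 1 / 16 := by linarith
  set N : ℝ := s * (s - 1) * n ^ (s - 2) with hN
  have hN0 : 0 < N := by
    have h1 : (0 : ℝ) < s := by linarith
    have h2 : (0 : ℝ) < s - 1 := by linarith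
    positivity
  set A : V → V → ℝ := fun a b => ∑ x : Fin s → V, ∑ i, ∑ j,
    (if i = j then (0 : ℝ) else (if x i = a then (1 : ℝ) else 0) * (if x j = b then 1 else 0) *
      (if Good p ε x then 1 else 0)) with hA
  -- total number of samples through a pair
  have hcnt2 : ∀ (i j : Fin s), i ≠ j → ∀ a b : V,
      ∑ x : Fin s → V, (if x i = a then (1 : ℝ) else 0) * (if x j = b then 1 else 0)
        = n ^ (s - 2) := by
    intro i j hij a b
    have h1 := cnt (V := V) {i, j} (fun u => if u = i then a else b)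
    rw [Finset.card_pair hij] at h1
    rw [← hn] at h1
    rw [← h1]
    refine Finset.sum_congr rfl fun x _ => ?_
    rw [Finset.prod_pair hij, if_pos rfl, if_neg (Ne.symm hij)]
  have hoff : ∑ i : Fin s, ∑ j : Fin s, (if i = j then (0 : ℝ) else 1) = s * (s - 1) := by
    have h1 : ∀ i : Fin s, ∑ j : Fin s, (if i = j then (0 : ℝ) else 1) = s - 1 := by
      intro i
      have h2 : ∀ j : Fin s, (if i = j then (0 : ℝ) else 1) = 1 - if i = j then 1 else 0 := by
        intro j; split_ifs <;> ring
      rw [Finset.sum_congr rfl fun j _ => h2 j, Finset.sum_sub_distrib]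
      simp
    rw [Finset.sum_congr rfl fun i _ => h1 i, Finset.sum_const, Finset.card_univ,
      Fintype.card_fin, nsmul_eq_mul]
  have hAswap : ∀ a b, A a b = ∑ i, ∑ j, ∑ x : Fin s → V,
      (if i = j then (0 : ℝ) else (if x i = a then (1 : ℝ) else 0) * (if x j = b then 1 else 0) *
      (if Good p ε x then 1 else 0)) := by
    intro a b
    simp only [hA]
    rw [Finset.sum_comm]
    refine Finset.sum_congr rfl fun i _ => ?_
    rw [Finset.sum_comm]
  have hAle : ∀ a b, A a b ≤ N := by
    intro a b
    rw [hAswap, hN, ← hoff, Finset.sum_mul]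
    refine Finset.sum_le_sum fun i _ => ?_
    rw [Finset.sum_mul]
    refine Finset.sum_le_sum fun j _ => ?_
    by_cases hij : i = j
    · simp [hij]
    · simp only [hij, if_false, one_mul]
      rw [← hcnt2 i j hij a b]
      refine Finset.sum_le_sum fun x _ => ?_
      split_ifs <;> norm_num
  have hAge : ∀ a b, (1 - d) * N ≤ A a b := by
    intro a b
    rw [hAswap, hN]
    have h1 : (1 - d) * (s * (s - 1) * n ^ (s - 2))
        = ∑ i : Fin s, ∑ j : Fin s, (if i = j then (0 : ℝ) else 1) * ((1 - d) * n ^ (s - 2)) := by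
      simp only [← Finset.sum_mul]
      rw [hoff]; ring
    rw [h1]
    refine Finset.sum_le_sum fun i _ => Finset.sum_le_sum fun j _ => ?_
    by_cases hij : i = j
    · simp [hij]
    · simp only [hij, if_false, one_mul]
      have h2 := bad_le p0 p1 hε hε4 hG hs12 hij a b
      have h3 := hcnt2 i j hij a b
      have h4 : ∑ x : Fin s → V, (if x i = a then (1 : ℝ) else 0) * (if x j = b then 1 else 0) *
          (if Good p ε x then 1 else 0) = ∑ x : Fin s → V, (if x i = a then (1 : ℝ) else 0) *
          (if x j = b then 1 else 0) - ∑ x : Fin s → V, (if x i = a then (1 : ℝ) else 0) *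
          (if x j = b then 1 else 0) * (if Good p ε x then 0 else 1) := by
        rw [← Finset.sum_sub_distrib]
        refine Finset.sum_congr rfl fun x _ => ?_
        split_ifs <;> ring
      rw [h4, h3]
      rw [← hn] at h2
      have h5 : (s : ℝ) * n ^ (s - 2) * Real.exp (-(ε ^ 2 * s / 32)) = d * n ^ (s - 2) := by
        rw [hd]; ring
      rw [h5] at h2
      linarith
  have hApos : ∀ a b, 0 < A a b := fun a b =>
    lt_of_lt_of_le (mul_pos (by linarith) hN0) (hAge a b)
  set m : ℝ := (1 - d)⁻¹ with hm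
  have hm0 : 0 < m := inv_pos.2 (by linarith)
  have hm1 : m * (3 / 4) ≤ 3 / 4 + ε / 2 := by
    rw [hm, inv_mul_le_iff₀ (by linarith)]
    nlinarith
  have hm2 : m ≤ 2 := by
    rw [hm, inv_le_comm₀ (by linarith) (by norm_num)]
    linarith
  have hrat : ∀ a b, 1 ≤ N / A a b ∧ N / A a b ≤ m := by
    intro a b
    constructor
    · rw [le_div_iff₀ (hApos a b)]; linarith [hAle a b]
    · rw [div_le_iff₀ (hApos a b), hm, ← div_eq_inv_mul, le_div_iff₀ (by linarith)]
      linarith [hAge a b]
  set q : V → V → ℝ := fun a b => p a b * (N / A a b) with hq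
  have hAs : ∀ a b, A a b = A b a := by
    intro a b
    rw [hAswap a b, hAswap b a, Finset.sum_comm]
    refine Finset.sum_congr rfl fun i _ => Finset.sum_congr rfl fun j _ =>
      Finset.sum_congr rfl fun x _ => ?_
    by_cases hij : i = j
    · subst hij; simp
    · rw [if_neg hij, if_neg (Ne.symm hij)]; ring
  have q0 : ∀ a b, 0 ≤ q a b := fun a b =>
    mul_nonneg (p0 a b) (by linarith [(hrat a b).1])
  have qm : ∀ a b, q a b ≤ m := by
    intro a b
    have h1 := (hrat a b)
    calc q a b ≤ 1 * (N / A a b) := mul_le_mul_of_nonneg_right (p1 a b) (by linarith [h1.1])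
      _ ≤ m := by rw [one_mul]; exact h1.2
  have qp : ∀ a b, p a b ≤ q a b := by
    intro a b
    have h1 := mul_le_mul_of_nonneg_left (hrat a b).1 (p0 a b)
    simpa [hq] using h1
  have qs : ∀ a b, q a b = q b a := fun a b => by simp only [hq, ps a b, hAs a b]
  have qd : ∀ a, q a a = 0 := fun a => by simp only [hq, pd a, zero_mul]
  -- decompositions on the good samples
  have hex : ∀ x : Fin s → V, ∃ o : Fin s → Fin s → Fin s → ℝ, (∀ i j k, 0 ≤ o i j k) ∧
      (∀ i j k, o i j k = o j i k) ∧ (∀ i j k, o i j k = o i k j) ∧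
      (∀ i j k, o i j k ≠ 0 → i ≠ j ∧ i ≠ k ∧ j ≠ k) ∧
      (∀ i j, ∑ k, o i j k = if Good p ε x then q (x i) (x j) else 0) := by
    intro x
    by_cases hgood : Good p ε x
    · obtain ⟨o, o0, o1, o2, o3, o4⟩ := weighted (V := Fin s) (p := fun i j => q (x i) (x j) / m)
        (fun i j => div_nonneg (q0 _ _) hm0.le)
        (fun i j => by rw [div_le_one hm0]; exact qm _ _)
        (fun i j => by simp only [qs (x i) (x j)]) (fun i => by simp only [qd, zero_div])
        (fun i => by
          rw [Fintype.card_fin, ← Finset.sum_div, le_div_iff₀ hm0]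
          have h1 := hgood i
          have h2 : ∑ u, p (x i) (x u) ≤ ∑ u, q (x i) (x u) :=
            Finset.sum_le_sum fun u _ => qp _ _
          have h3 : m * (3 / 4) * s ≤ (3 / 4 + ε / 2) * s :=
            mul_le_mul_of_nonneg_right hm1 (by positivity)
          linarith)
      refine ⟨fun i j k => m * o i j k, fun i j k => mul_nonneg hm0.le (o0 i j k),
        fun i j k => by simp only [o1 i j k], fun i j k => by simp only [o2 i j k],
        fun i j k h => o3 i j k fun h' => h (by simp only [h', mul_zero]), fun i j => ?_⟩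
      rw [if_pos hgood, ← Finset.mul_sum, o4]
      field_simp
    · exact ⟨fun _ _ _ => 0, fun _ _ _ => le_rfl, fun _ _ _ => rfl, fun _ _ _ => rfl,
        fun _ _ _ h => absurd rfl h, fun i j => by rw [if_neg hgood]; simp⟩
  choose O O0 O1 O2 O3 O4 using hex
  have Ole : ∀ x i j k, O x i j k ≤ m := by
    intro x i j k
    have h1 : O x i j k ≤ ∑ k, O x i j k :=
      Finset.single_le_sum (f := fun k => O x i j k) (fun k _ => O0 x i j k) (Finset.mem_univ k)
    rw [O4] at h1
    refine h1.trans ?_
    split_ifs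
    · exact qm _ _
    · exact hm0.le
  set I : (Fin s → V) → Fin s → V → ℝ := fun x i a => if x i = a then 1 else 0 with hI
  have I0 : ∀ x i a, 0 ≤ I x i a := by
    intro x i a; simp only [hI]; split_ifs <;> norm_num
  refine ⟨fun a b c => (∑ x : Fin s → V, ∑ i, ∑ j, ∑ k, I x i a * I x j b * I x k c * O x i j k) / N,
    ?_, ?_, ?_, ?_, ?_⟩
  · intro a b c
    refine div_nonneg (Finset.sum_nonneg fun x _ => Finset.sum_nonneg fun i _ =>
      Finset.sum_nonneg fun j _ => Finset.sum_nonneg fun k _ => ?_) hN0.le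
    exact mul_nonneg (mul_nonneg (mul_nonneg (I0 _ _ _) (I0 _ _ _)) (I0 _ _ _)) (O0 _ _ _ _)
  · intro a b c
    simp only
    congr 1
    refine Finset.sum_congr rfl fun x _ => ?_
    rw [Finset.sum_comm]
    refine Finset.sum_congr rfl fun i _ => Finset.sum_congr rfl fun j _ =>
      Finset.sum_congr rfl fun k _ => ?_
    rw [O1 x j i k]; ring
  · intro a b c
    simp only
    congr 1
    refine Finset.sum_congr rfl fun x _ => Finset.sum_congr rfl fun i _ => ?_
    rw [Finset.sum_comm]
    refine Finset.sum_congr rfl fun j _ => Finset.sum_congr rfl fun k _ => ?_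
    rw [O2 x i k j]; ring
  · -- the bound
    intro a b c
    simp only
    have hsw : ∑ x : Fin s → V, ∑ i, ∑ j, ∑ k, I x i a * I x j b * I x k c * O x i j k
        = ∑ i, ∑ j, ∑ k, ∑ x : Fin s → V, I x i a * I x j b * I x k c * O x i j k := by
      rw [Finset.sum_comm]
      refine Finset.sum_congr rfl fun i _ => ?_
      rw [Finset.sum_comm]
      refine Finset.sum_congr rfl fun j _ => ?_
      rw [Finset.sum_comm]
    have h1 : ∀ i j k : Fin s, ∑ x : Fin s → V, I x i a * I x j b * I x k c * O x i j k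
        ≤ (if i = j then 0 else 1) * (m * n ^ (s - 3)) := by
      intro i j k
      by_cases hd3 : i ≠ j ∧ i ≠ k ∧ j ≠ k
      · obtain ⟨hij, hik, hjk⟩ := hd3
        rw [if_neg hij, one_mul]
        have h2 := cnt (V := V) {i, j, k} (fun u => if u = i then a else if u = j then b else c)
        have hc3 : ({i, j, k} : Finset (Fin s)).card = 3 :=
          Finset.card_eq_three.2 ⟨i, j, k, hij, hik, hjk, rfl⟩
        rw [hc3, ← hn] at h2
        rw [← h2, Finset.mul_sum]
        refine Finset.sum_le_sum fun x _ => ?_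
        have n1 : i ∉ ({j, k} : Finset (Fin s)) := by simp [hij, hik]
        have n2 : j ∉ ({k} : Finset (Fin s)) := by simp [hjk]
        rw [Finset.prod_insert n1, Finset.prod_insert n2, Finset.prod_singleton, if_pos rfl,
          if_neg (Ne.symm hij), if_pos rfl, if_neg (Ne.symm hik), if_neg (Ne.symm hjk)]
        have h3 : 0 ≤ I x i a * I x j b * I x k c :=
          mul_nonneg (mul_nonneg (I0 _ _ _) (I0 _ _ _)) (I0 _ _ _)
        have h4 := mul_le_mul_of_nonneg_left (Ole x i j k) h3
        refine h4.trans (le_of_eq ?_)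
        simp only [hI]; ring
      · have h2 : ∀ x, O x i j k = 0 := by
          intro x
          by_contra hc
          exact hd3 (O3 x i j k hc)
        simp only [h2, mul_zero, Finset.sum_const_zero]
        refine mul_nonneg ?_ (mul_nonneg hm0.le (by positivity))
        split_ifs <;> norm_num
    rw [hsw, div_le_iff₀ hN0]
    calc ∑ i, ∑ j, ∑ k, ∑ x : Fin s → V, I x i a * I x j b * I x k c * O x i j k
        ≤ ∑ i : Fin s, ∑ j : Fin s, ∑ _k : Fin s, (if i = j then 0 else 1) * (m * n ^ (s - 3)) :=
          Finset.sum_le_sum fun i _ => Finset.sum_le_sum fun j _ =>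
            Finset.sum_le_sum fun k _ => h1 i j k
      _ = s * (s - 1) * (s * (m * n ^ (s - 3))) := by
          rw [← hoff, Finset.sum_mul]
          refine Finset.sum_congr rfl fun i _ => ?_
          rw [Finset.sum_mul]
          refine Finset.sum_congr rfl fun j _ => ?_
          rw [Finset.sum_const, Finset.card_univ, Fintype.card_fin, nsmul_eq_mul]
          ring
      _ ≤ 2 * s / n * N := by
          have h5 : n ^ (s - 2) = n ^ (s - 3) * n := by
            rw [← pow_succ]; congr 1; omega
          have h6 : 2 * (s : ℝ) / n * N = s * (s - 1) * (s * (2 * n ^ (s - 3))) := by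
            rw [hN, h5]; field_simp
          rw [h6]
          have h7 : (0 : ℝ) ≤ n ^ (s - 3) := by positivity
          have h8 : (0 : ℝ) ≤ s := by positivity
          have h9 : (0 : ℝ) ≤ s * (s - 1) := mul_nonneg h8 (by linarith)
          exact mul_le_mul_of_nonneg_left (mul_le_mul_of_nonneg_left
            (mul_le_mul_of_nonneg_right hm2 h7) h8) h9
  · -- the marginals
    intro a b
    simp only
    rw [← Finset.sum_div, div_eq_iff hN0.ne']
    have hI1 : ∀ x k, ∑ c, I x k c = 1 := by
      intro x k; simp [hI]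
    have h1 : ∑ c, ∑ x : Fin s → V, ∑ i, ∑ j, ∑ k, I x i a * I x j b * I x k c * O x i j k
        = ∑ x : Fin s → V, ∑ i, ∑ j, I x i a * I x j b * ∑ k, O x i j k := by
      rw [Finset.sum_comm]
      refine Finset.sum_congr rfl fun x _ => ?_
      rw [Finset.sum_comm]
      refine Finset.sum_congr rfl fun i _ => ?_
      rw [Finset.sum_comm]
      refine Finset.sum_congr rfl fun j _ => ?_
      rw [Finset.sum_comm, Finset.mul_sum]
      refine Finset.sum_congr rfl fun k _ => ?_
      rw [← Finset.sum_mul, ← Finset.mul_sum, hI1, mul_one]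
    rw [h1]
    by_cases hab : a = b
    · subst hab
      rw [pd a, zero_mul]
      refine Finset.sum_eq_zero fun x _ => Finset.sum_eq_zero fun i _ =>
        Finset.sum_eq_zero fun j _ => ?_
      rw [O4]
      simp only [hI]
      by_cases h2 : x i = a
      · by_cases h3 : x j = a
        · rw [h2, h3, qd]; simp
        · simp [h3]
      · simp [h2]
    · have h2 : ∀ x : Fin s → V, ∀ i j, I x i a * I x j b * ∑ k, O x i j k
          = q a b * (if i = j then (0 : ℝ) else (if x i = a then (1 : ℝ) else 0) *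
            (if x j = b then 1 else 0) * (if Good p ε x then 1 else 0)) := by
        intro x i j
        rw [O4]
        simp only [hI]
        by_cases h2 : x i = a
        · by_cases h3 : x j = b
          · have hij : i ≠ j := by
              rintro rfl
              exact hab (h2.symm.trans h3)
            rw [if_neg hij, if_pos h2, if_pos h3, h2, h3]
            split_ifs <;> ring
          · simp [h3]
        · simp [h2]
      simp only [h2, ← Finset.mul_sum]
      have h3 : ∑ x : Fin s → V, ∑ i, ∑ j, (if i = j then (0 : ℝ) else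
          (if x i = a then (1 : ℝ) else 0) * (if x j = b then 1 else 0) *
          (if Good p ε x then 1 else 0)) = A a b := rfl
      rw [h3]
      simp only [hq]
      have := (hApos a b).ne'
      field_simp

end Pool.WFN
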